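import Pool.Agent.H85.ERG.Targets

/-!
# Polygonal billiards, cutoff along the orbits: the anisotropic Lipschitz bound (row M12)
-/

namespace Pool.Agent.H26.ERG

open MeasureTheory Set Metric Filter Topology Pool.Agent.H85.ERG Pool.Agent.H93.EN
open Pool.Agent.H93.BL hiding T_B1 T_B2 T_B3 T_SB T_SC

theorem m12 (h1 : T_CMP) (h2 : T_FO) (h3 : T_MM0) : T_M12 := by
  intro ι P κ hLS a L ha hL x R τ hC y₀ y₀' w s₀ e₀ hy₀ hs₀ he₀ hw hb₁ hb₂ hΩ₁ hΩ₂ hr₁ hr₂
  have hκ : 0 < κ := hLS.1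
  have key : ∀ (y y' : ℂ) (s : ℝ) (e : ℂ), y' = y + (s : ℂ) * w + e → 128 * |s| < κ * a →
      128 * ‖e‖ < κ * a → ‖y' - x‖ + ‖y' - y‖ < R → fp P τ y ∈ P.Ω → fp P τ y' ∈ P.Ω →
      a < 2 * rh P (fp P τ y') →
      mm P κ a L (fp P τ y') (fw P τ y' w) ≤ |s| / L + 64 / κ * ‖e‖ / a +
        mm P κ a L (fp P τ y) (fw P τ y w) := by
    intro y y' s e hy hs he hb hΩ hΩ' hr
    obtain ⟨hn, hinv, hadd, hsm⟩ := (h2 ι P).1 τ y' (-e)
    have hV : y - y' = ((-s : ℝ) : ℂ) * w + -e := by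
      rw [hy]; push_cast; ring
    have hfwV : fw P τ y' (y - y') = ((-s : ℝ) : ℂ) * fw P τ y' w + fw P τ y' (-e) := by
      rw [hV, ((h2 ι P).1 τ y' (((-s : ℝ) : ℂ) * w)).2.2.1 (-e),
        ((h2 ι P).1 τ y' w).2.2.2 (-s)]
    have hnV : ‖y - y'‖ ≤ |s| + ‖e‖ := by
      rw [hV]
      refine (norm_add_le _ _).trans ?_
      rw [norm_neg, norm_mul, hw, Complex.norm_real, mul_one, Real.norm_eq_abs, abs_neg]
    have hn' : ‖fw P τ y' (y - y')‖ = ‖y - y'‖ := ((h2 ι P).1 τ y' (y - y')).1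
    obtain ⟨τ', hτ'⟩ := hLS.2.2.1 (fp P τ y') hΩ'
    have hrh : rh P (fp P τ y') = infDist (fp P τ y') (VV P) := rfl
    have hVR : ‖y - y'‖ < κ * infDist (fp P τ y') (VV P) := by
      rw [← hrh]
      nlinarith
    have hcmp := h1 ι P x R τ (fp P τ y') (κ * infDist (fp P τ y') (VV P)) τ' (y' - x) (y - y')
      hC hτ' (by rw [add_sub_cancel]) hΩ' (by rw [norm_sub_rev y y']; exact hb) hVR
      (Or.inl (by
        have : x + (y' - x) + (y - y') = y := by ring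
        rw [this]; exact hΩ))
    have e1 : x + (y' - x) = y' := by ring
    have e2 : x + (y' - x) + (y - y') = y := by ring
    rw [e2, e1] at hcmp
    obtain ⟨hc1, hc2⟩ := hcmp
    have hMv : Mv P κ a (fp P τ y') (fw P τ y' w)
        (((-s : ℝ) : ℂ) * fw P τ y' w + fw P τ y' (-e)) (fp P τ y) (fw P τ y w) := by
      refine ⟨hΩ', hΩ, hr, ?_, τ', hτ', ?_, ?_⟩
      · rw [← hfwV, hn']
        nlinarith
      · rw [← hfwV]; exact hc1.symm
      · rw [← hfwV]; exact (hc2 w).symm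
    have hstep : ∀ c, Ch P κ a L c (fp P τ y) (fw P τ y w) →
        mm P κ a L (fp P τ y') (fw P τ y' w) ≤ |s| / L + 64 / κ * ‖e‖ / a + c := by
      intro c hc
      have hch := Ch.step (P := P) (κ := κ) (a := a) (L := L) c (-s) (fw P τ y' (-e))
        (fp P τ y') (fw P τ y' w) (fp P τ y) (fw P τ y w) (by rw [abs_neg]; exact hs)
        (by rw [hn, norm_neg]; exact he) hMv hc
      have := ((h3 ι P κ a L hκ ha hL (fp P τ y') (fw P τ y' w)).1 _ hch).2
      rw [hn, norm_neg, abs_neg] at this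
      exact this
    have hne : {c | Ch P κ a L c (fp P τ y) (fw P τ y w)}.Nonempty := ⟨_, Ch.stop _ _ hΩ⟩
    have : mm P κ a L (fp P τ y') (fw P τ y' w) - (|s| / L + 64 / κ * ‖e‖ / a) ≤
        mm P κ a L (fp P τ y) (fw P τ y w) := by
      unfold mm
      refine le_csInf hne ?_
      intro c hc
      have := hstep c hc
      unfold mm at this
      linarith
    linarith
  rw [abs_sub_le_iff]
  constructor
  · have := key y₀ y₀' s₀ e₀ hy₀ hs₀ he₀ hb₂ hΩ₁ hΩ₂ hr₂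
    linarith
  · have := key y₀' y₀ (-s₀) (-e₀) (by rw [hy₀]; push_cast; ring) (by rw [abs_neg]; exact hs₀)
      (by rw [norm_neg]; exact he₀) (by rw [norm_sub_rev y₀ y₀']; exact hb₁) hΩ₂ hΩ₁ hr₁
    rw [abs_neg, norm_neg] at this
    linarith

end Pool.Agent.H26.ERG
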